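import Mathlib

/-!
The infiltration game on `n` cells: the infiltrator's guarantee for every searcher speed `w`, the
searcher's guarantee for `w ≥ 2` (a power of `n`), and the sharper one for `w ≥ n - 1`.

-/

set_option autoImplicit false

namespace Pool.Agent.H428I

open Finset

/-- The searcher's paths: `y 0 = 1`, at every later time `y` is in one of the cells `1, …, n`, and
consecutive cells are at distance at most `w`. -/
def IsSearch (n w : ℕ) (y : ℕ → ℤ) : Prop :=
  y 0 = 1 ∧ ∀ k, 1 ≤ y (k + 1) ∧ y (k + 1) ≤ n ∧ |y (k + 1) - y k| ≤ w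

/-- The infiltrator's paths: `x 0 = 1`, at every later time `x` is in one of the cells
`1, …, n + 1`, and consecutive cells are at distance at most `1`. -/
def IsInfil (n : ℕ) (x : ℕ → ℤ) : Prop :=
  x 0 = 1 ∧ ∀ k, 1 ≤ x (k + 1) ∧ x (k + 1) ≤ n + 1 ∧ |x (k + 1) - x k| ≤ 1

open Classical in
/-- The infiltrator's winning probability when he follows `x` and the searcher follows `y`:
`lam` to the number of times `k`, `1 ≤ k < T`, with `x k = y k`, where `T` is the first time at which
`x` is at the target `n + 1`; and `0` if `x` never reaches the target. -/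
noncomputable def win (n : ℕ) (lam : ℝ) (x y : ℕ → ℤ) : ℝ :=
  if h : ∃ T, x T = n + 1 then
    lam ^ ((Finset.Ico 1 (Nat.find h)).filter (fun k => x k = y k)).card
  else 0

/-- Bernoulli's inequality in the form used for integer valued catches. -/
lemma bern (lam : ℝ) (h0 : 0 < lam) (h1 : lam < 1) (m N : ℕ) :
    lam ^ m * (1 - ((N : ℝ) - m) * (1 - lam)) ≤ lam ^ N := by
  rcases le_total m N with h | h
  · obtain ⟨d, rfl⟩ := Nat.exists_eq_add_of_le h
    rw [pow_add]
    apply mul_le_mul_of_nonneg_left _ (pow_pos h0 m).le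
    have := one_add_mul_le_pow (a := lam - 1) (by linarith) d
    push_cast
    have e : 1 + (lam - 1) = lam := by ring
    rw [e] at this
    nlinarith
  · obtain ⟨d, rfl⟩ := Nat.exists_eq_add_of_le h
    rw [pow_add, mul_assoc]
    have hN : 0 < lam ^ N := pow_pos h0 N
    have key : lam ^ d * (1 + d * (1 - lam)) ≤ 1 := by
      have h2 := one_add_mul_le_pow (a := 1 - lam) (by linarith) d
      have h3 : lam ^ d * (1 + (1 - lam)) ^ d ≤ 1 := by
        rw [← mul_pow]
        apply pow_le_one₀ (by nlinarith) (by nlinarith)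
      have h4 : 0 < lam ^ d := pow_pos h0 d
      calc lam ^ d * (1 + d * (1 - lam)) ≤ lam ^ d * (1 + (1 - lam)) ^ d :=
            mul_le_mul_of_nonneg_left h2 h4.le
        _ ≤ 1 := h3
    push_cast
    have e : 1 - ((N : ℝ) - ((N : ℝ) + d)) * (1 - lam) = 1 + d * (1 - lam) := by ring
    rw [e]
    calc lam ^ N * (lam ^ d * (1 + d * (1 - lam))) ≤ lam ^ N * 1 :=
          mul_le_mul_of_nonneg_left key hN.le
      _ = lam ^ N := mul_one _

/-- The infiltrator's paths: constant ratio `u / M` of the reachable cells up to time `q - 1`, then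
up one cell at each time. -/
def xp (q M u : ℕ) (k : ℕ) : ℤ :=
  ((min (q + 2) (1 + u * min (k + 1) q / M + (k + 1 - q)) : ℕ) : ℤ)

lemma xp_infil (q : ℕ) (hq : 1 ≤ q) (M u : ℕ) (hu : u < M) : IsInfil (q + 1) (xp q M u) := by
  have hM : 0 < M := by omega
  constructor
  · unfold xp
    have h1 : min (0 + 1) q = 1 := by omega
    rw [h1, mul_one, Nat.div_eq_of_lt hu]
    have : min (q + 2) (1 + 0 + (0 + 1 - q)) = 1 := by omega
    rw [this]; rfl
  · intro k
    unfold xp
    have hstep : u * min (k + 1 + 1) q / M ≤ u * min (k + 1) q / M + 1 := by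
      rw [← Nat.add_div_right _ hM]
      apply Nat.div_le_div_right
      rcases le_or_gt q (k + 1) with h | h
      · rw [min_eq_right h, min_eq_right (by omega)]; omega
      · rw [min_eq_left h.le, min_eq_left (by omega)]
        have : u * (k + 1 + 1) = u * (k + 1) + u := by ring
        omega
    have hstep2 : q ≤ k + 1 → u * min (k + 1 + 1) q / M = u * min (k + 1) q / M := by
      intro h
      rw [min_eq_right h, min_eq_right (by omega)]
    have hmono : u * min (k + 1) q / M ≤ u * min (k + 1 + 1) q / M := by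
      apply Nat.div_le_div_right
      apply Nat.mul_le_mul_left
      omega
    generalize u * min (k + 1 + 1) q / M = b at *
    generalize u * min (k + 1) q / M = a at *
    refine ⟨?_, ?_, ?_⟩
    · omega
    · push_cast; omega
    · rw [abs_le]
      rcases le_or_gt q (k + 1) with h | h
      · have := hstep2 h
        constructor <;> omega
      · constructor <;> omega

lemma count_le (M d v : ℕ) (hd : d ∣ M) (hM : 0 < M) :
    (((Finset.range M).filter (fun u => u * d / M = v)).card : ℝ) ≤ M / d := by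
  obtain ⟨e, rfl⟩ := hd
  have hd0 : 0 < d := by
    rcases Nat.eq_zero_or_pos d with h | h
    · subst h; simp at hM
    · exact h
  have he0 : 0 < e := by
    rcases Nat.eq_zero_or_pos e with h | h
    · subst h; simp at hM
    · exact h
  have hsub : (Finset.range (d * e)).filter (fun u => u * d / (d * e) = v) ⊆
      Finset.Ico (v * e) (v * e + e) := by
    intro u hu
    rw [Finset.mem_filter] at hu
    have h := hu.2
    rw [mul_comm u d, Nat.mul_div_mul_left _ _ hd0] at h
    rw [Finset.mem_Ico]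
    have h1 := Nat.div_add_mod u e
    have h2 := Nat.mod_lt u he0
    rw [h] at h1
    have h3 : e * v = v * e := mul_comm _ _
    constructor <;> omega
  have hc := Finset.card_le_card hsub
  rw [Nat.card_Ico] at hc
  have hc' : ((Finset.range (d * e)).filter (fun u => u * d / (d * e) = v)).card ≤ e := by omega
  have hdR : (0 : ℝ) < d := by exact_mod_cast hd0
  have e1 : ((d * e : ℕ) : ℝ) / d = e := by
    push_cast
    field_simp
  rw [e1]
  exact_mod_cast hc'

lemma xp_count (q : ℕ) (hq : 1 ≤ q) (k : ℕ) (c : ℤ) (hc : c ≤ q + 1) :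
    (((Finset.range q.factorial).filter (fun u => xp q q.factorial u k = c)).card : ℝ) ≤
      (q.factorial : ℝ) / (min (k + 1) q : ℕ) := by
  have hM : 0 < q.factorial := Nat.factorial_pos q
  have hd : min (k + 1) q ∣ q.factorial := Nat.dvd_factorial (by omega) (by omega)
  refine le_trans ?_ (count_le q.factorial (min (k + 1) q) (c.toNat - 1 - (k + 1 - q)) hd hM)
  have : (Finset.range q.factorial).filter (fun u => xp q q.factorial u k = c) ⊆
      (Finset.range q.factorial).filter
        (fun u => u * min (k + 1) q / q.factorial = c.toNat - 1 - (k + 1 - q)) := by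
    intro u hu
    rw [Finset.mem_filter] at hu ⊢
    refine ⟨hu.1, ?_⟩
    have h := hu.2
    unfold xp at h
    generalize u * min (k + 1) q / q.factorial = a at *
    omega
  exact_mod_cast Finset.card_le_card this

lemma harm_sum (q : ℕ) (hq : 1 ≤ q) :
    ∑ k ∈ Finset.Ico 1 (2 * q), (1 : ℝ) / (min (k + 1) q : ℕ) =
      ∑ k ∈ Finset.Icc 1 q, (1 : ℝ) / k := by
  have hsplit := Finset.sum_Ico_consecutive (fun k : ℕ => (1 : ℝ) / (min (k + 1) q : ℕ))
    (show 1 ≤ q from hq) (show q ≤ 2 * q by omega)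
  rw [← hsplit]
  have h1 : ∑ k ∈ Finset.Ico 1 q, (1 : ℝ) / (min (k + 1) q : ℕ) =
      ∑ k ∈ Finset.Ico 2 (q + 1), (1 : ℝ) / k := by
    rw [← Finset.sum_Ico_add' (fun k : ℕ => (1 : ℝ) / (k : ℝ)) 1 q 1]
    apply Finset.sum_congr rfl
    intro k hk
    rw [Finset.mem_Ico] at hk
    rw [min_eq_left (by omega)]
  have h2 : ∑ k ∈ Finset.Ico q (2 * q), (1 : ℝ) / (min (k + 1) q : ℕ) = 1 := by
    have hqR : (q : ℝ) ≠ 0 := by
      have : (0 : ℝ) < q := by exact_mod_cast hq
      exact this.ne'
    rw [Finset.sum_congr rfl (g := fun _ => (1 : ℝ) / q)]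
    · rw [Finset.sum_const, Nat.card_Ico, nsmul_eq_mul]
      have : 2 * q - q = q := by omega
      rw [this]
      field_simp
    · intro k hk
      rw [Finset.mem_Ico] at hk
      rw [min_eq_right (by omega)]
  rw [h1, h2]
  have h3 : Finset.Icc 1 q = Finset.Ico 1 (q + 1) := by
    ext a; simp only [Finset.mem_Icc, Finset.mem_Ico]; omega
  rw [h3, Finset.sum_eq_sum_Ico_succ_bot (by omega : 1 < q + 1)]
  simp
  ring

/-- **Part A**: the infiltrator's guarantee. -/
lemma partA (q : ℕ) (hq : 1 ≤ q) (lam : ℝ) (h0 : 0 < lam) (h1 : lam < 1) (w : ℕ) (y : ℕ → ℤ)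
    (hy : IsSearch (q + 1) w y) (m : ℕ) :
    lam ^ m * (1 - (∑ k ∈ Finset.Icc 1 q, (1 : ℝ) / k - m) * (1 - lam)) ≤
      ∑ u ∈ Finset.range q.factorial, (1 / (q.factorial : ℝ)) *
        win (q + 1) lam (xp q q.factorial u) y := by
  classical
  have hM : 0 < q.factorial := Nat.factorial_pos q
  have hMR : (0 : ℝ) < q.factorial := by exact_mod_cast hM
  set M := q.factorial with hMdef
  -- number of catches
  let N : ℕ → ℕ := fun u => ((Finset.Ico 1 (2 * q)).filter (fun k => xp q M u k = y k)).card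
  have hwin : ∀ u ∈ Finset.range M,
      lam ^ m * (1 - ((N u : ℝ) - m) * (1 - lam)) ≤ win (q + 1) lam (xp q M u) y := by
    intro u hu
    have hT : xp q M u (2 * q) = ((q + 1 : ℕ) : ℤ) + 1 := by
      unfold xp
      generalize u * min (2 * q + 1) q / M = a
      omega
    have hex : ∃ T, xp q M u T = ((q + 1 : ℕ) : ℤ) + 1 := ⟨_, hT⟩
    have hle : Nat.find hex ≤ 2 * q := Nat.find_min' hex hT
    unfold win
    rw [dif_pos hex]
    refine le_trans (bern lam h0 h1 m (N u)) ?_
    apply pow_le_pow_of_le_one h0.le h1.le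
    apply Finset.card_le_card
    apply Finset.filter_subset_filter
    apply Finset.Ico_subset_Ico_right hle
  have hsum : ∑ u ∈ Finset.range M, (N u : ℝ) ≤ M * ∑ k ∈ Finset.Icc 1 q, (1 : ℝ) / k := by
    have e1 : ∀ u, (N u : ℝ) = ∑ k ∈ Finset.Ico 1 (2 * q), if xp q M u k = y k then (1 : ℝ) else 0 := by
      intro u
      simp only [N]
      rw [Finset.card_filter]
      push_cast
      rfl
    rw [Finset.sum_congr rfl (fun u _ => e1 u), Finset.sum_comm, ← harm_sum q hq, Finset.mul_sum]
    apply Finset.sum_le_sum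
    intro k hk
    rw [Finset.mem_Ico] at hk
    have hyk : y k ≤ (q : ℤ) + 1 := by
      obtain ⟨j, rfl⟩ : ∃ j, k = j + 1 := ⟨k - 1, by omega⟩
      have := (hy.2 j).2.1
      push_cast at this
      exact this
    have := xp_count q hq k (y k) hyk
    rw [Finset.card_filter] at this
    push_cast at this
    rw [mul_one_div]
    push_cast
    exact this
  have hfin : lam ^ m * (1 - (∑ k ∈ Finset.Icc 1 q, (1 : ℝ) / k - m) * (1 - lam)) ≤
      ∑ u ∈ Finset.range M, (1 / (M : ℝ)) * (lam ^ m * (1 - ((N u : ℝ) - m) * (1 - lam))) := by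
    have e2 : ∑ u ∈ Finset.range M, (1 / (M : ℝ)) * (lam ^ m * (1 - ((N u : ℝ) - m) * (1 - lam))) =
        lam ^ m * (1 - ((∑ u ∈ Finset.range M, (N u : ℝ)) / M - m) * (1 - lam)) := by
      rw [← Finset.mul_sum, ← Finset.mul_sum, Finset.sum_sub_distrib, ← Finset.sum_mul,
        Finset.sum_sub_distrib]
      simp only [Finset.sum_const, Finset.card_range, nsmul_eq_mul, mul_one]
      field_simp
    rw [e2]
    apply mul_le_mul_of_nonneg_left _ (pow_pos h0 m).le
    have h3 : (∑ u ∈ Finset.range M, (N u : ℝ)) / M ≤ ∑ k ∈ Finset.Icc 1 q, (1 : ℝ) / k := by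
      rw [div_le_iff₀ hMR, mul_comm]
      exact hsum
    nlinarith
  refine hfin.trans (Finset.sum_le_sum fun u hu => ?_)
  exact mul_le_mul_of_nonneg_left (hwin u hu) (by positivity)

/-- The searcher's paths: free choices `g` up to time `q - 1`, then cell `q + 1` for ever. -/
def yp (q : ℕ) (g : (k : Fin (q - 1)) → Fin ((k : ℕ) + 2)) (k : ℕ) : ℤ :=
  if h : 1 ≤ k ∧ k ≤ q - 1 then (1 + (g ⟨k - 1, by omega⟩ : ℕ) : ℤ)
  else if k = 0 then 1 else (q : ℤ) + 1

lemma yp_search (q w : ℕ) (hw : q ≤ w) (g : (k : Fin (q - 1)) → Fin ((k : ℕ) + 2)) :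
    IsSearch (q + 1) w (yp q g) := by
  have hb : ∀ k, 1 ≤ yp q g k ∧ yp q g k ≤ (q : ℤ) + 1 := by
    intro k
    unfold yp
    split_ifs with h h2
    · have := (g ⟨k - 1, by omega⟩).2
      simp only at this
      constructor <;> omega
    · constructor <;> omega
    · constructor <;> omega
  refine ⟨?_, fun k => ⟨(hb _).1, ?_, ?_⟩⟩
  · unfold yp
    rw [dif_neg (by omega)]
    simp
  · push_cast
    exact (hb _).2
  · have h1 := hb (k + 1)
    have h2 := hb k
    rw [abs_le]
    constructor <;> omega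

lemma infil_speed (n : ℕ) (x : ℕ → ℤ) (hx : IsInfil n x) (k : ℕ) : x k ≤ k + 1 := by
  induction k with
  | zero => rw [hx.1]; norm_num
  | succ k ih =>
    have := (hx.2 k).2.2
    rw [abs_le] at this
    push_cast
    omega

lemma infil_pos (n : ℕ) (x : ℕ → ℤ) (hx : IsInfil n x) (k : ℕ) : 1 ≤ x k := by
  cases k with
  | zero => rw [hx.1]
  | succ k => exact (hx.2 k).1

/-- **Part B**: the searcher's guarantee. -/
lemma partB (q : ℕ) (hq : 1 ≤ q) (lam : ℝ) (h0 : 0 < lam) (h1 : lam < 1) (x : ℕ → ℤ)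
    (hx : IsInfil (q + 1) x) :
    ∑ g : ((k : Fin (q - 1)) → Fin ((k : ℕ) + 2)),
      (∏ k : Fin (q - 1), (1 / (((k : ℕ) : ℝ) + 2))) * win (q + 1) lam x (yp q g) ≤
      ∏ k ∈ Finset.Icc 1 q, (1 - (1 - lam) / (k : ℝ)) := by
  classical
  -- pointwise bound of the winning probability
  have hpt : ∀ g : ((k : Fin (q - 1)) → Fin ((k : ℕ) + 2)),
      win (q + 1) lam x (yp q g) ≤ lam *
        ∏ k : Fin (q - 1), (if x ((k : ℕ) + 1) = (1 + (g k : ℕ) : ℤ) then lam else 1) := by
    intro g
    unfold win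
    split_ifs with hex
    · have hT := Nat.find_spec hex
      set T := Nat.find hex with hTdef
      have hTq : q + 1 ≤ T := by
        have := infil_speed (q + 1) x hx T
        rw [hT] at this
        push_cast at this
        omega
      -- the last time before the target
      have hlast : x (T - 1) = (q : ℤ) + 1 := by
        have h2 : x (T - 1) ≠ ((q + 1 : ℕ) : ℤ) + 1 := by
          intro h
          exact Nat.find_min hex (show T - 1 < T by omega) h
        have h3 := (hx.2 (T - 1)).2.2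
        have h4 : T - 1 + 1 = T := by omega
        rw [h4, hT, abs_le] at h3
        have h5 : x (T - 1) ≤ ((q + 1 : ℕ) : ℤ) + 1 := by
          have h6 := (hx.2 (T - 2)).2.1
          have h7 : T - 2 + 1 = T - 1 := by omega
          rwa [h7] at h6
        push_cast at h2 h3 h5
        omega
      have hprod : ∏ k : Fin (q - 1), (if x ((k : ℕ) + 1) = (1 + (g k : ℕ) : ℤ) then lam else 1) =
          lam ^ ((Finset.univ : Finset (Fin (q - 1))).filter
            (fun k : Fin (q - 1) => x ((k : ℕ) + 1) = (1 + (g k : ℕ) : ℤ))).card := by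
        rw [Finset.prod_ite, Finset.prod_const, Finset.prod_const_one, mul_one]
      rw [hprod, ← pow_succ']
      apply pow_le_pow_of_le_one h0.le h1.le
      -- injection
      have hsub : insert (T - 1) (((Finset.univ : Finset (Fin (q - 1))).filter
            (fun k : Fin (q - 1) => x ((k : ℕ) + 1) = (1 + (g k : ℕ) : ℤ))).map
              ⟨fun k : Fin (q - 1) => (k : ℕ) + 1, fun a b h => by
                apply Fin.ext; simpa using h⟩) ⊆
          (Finset.Ico 1 T).filter (fun k => x k = yp q g k) := by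
        intro a ha
        rw [Finset.mem_insert, Finset.mem_map] at ha
        rw [Finset.mem_filter, Finset.mem_Ico]
        rcases ha with rfl | ⟨k, hk, rfl⟩
        · refine ⟨⟨by omega, by omega⟩, ?_⟩
          rw [hlast]
          unfold yp
          rw [dif_neg (by omega), if_neg (by omega)]
        · rw [Finset.mem_filter] at hk
          have hk2 := k.2
          change (1 ≤ (k : ℕ) + 1 ∧ (k : ℕ) + 1 < T) ∧ x ((k : ℕ) + 1) = yp q g ((k : ℕ) + 1)
          refine ⟨⟨by omega, by omega⟩, ?_⟩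
          rw [hk.2]
          unfold yp
          rw [dif_pos (by omega)]
          rfl
      have hc := Finset.card_le_card hsub
      rw [Finset.card_insert_of_notMem, Finset.card_map] at hc
      · exact hc
      · rw [Finset.mem_map]
        rintro ⟨k, -, hk⟩
        have hk2 := k.2
        have hk3 : (k : ℕ) + 1 = T - 1 := hk
        omega
    · apply mul_nonneg h0.le
      apply Finset.prod_nonneg
      intro k _
      split_ifs <;> linarith
  -- sum over the choices
  have hsum1 : ∀ k : Fin (q - 1),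
      ∑ j : Fin ((k : ℕ) + 2), (1 / (((k : ℕ) : ℝ) + 2)) *
        (if x ((k : ℕ) + 1) = (1 + (j : ℕ) : ℤ) then lam else 1) =
      1 - (1 - lam) / (((k : ℕ) : ℝ) + 2) := by
    intro k
    have hp := infil_pos (q + 1) x hx ((k : ℕ) + 1)
    have hs := infil_speed (q + 1) x hx ((k : ℕ) + 1)
    push_cast at hs
    have hj0 : (x ((k : ℕ) + 1)).toNat - 1 < (k : ℕ) + 2 := by omega
    have hval : ∀ j : Fin ((k : ℕ) + 2), (if x ((k : ℕ) + 1) = (1 + (j : ℕ) : ℤ) then lam else (1:ℝ)) =
        1 - (1 - lam) * (if j = ⟨(x ((k : ℕ) + 1)).toNat - 1, hj0⟩ then 1 else 0) := by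
      intro j
      by_cases hj : x ((k : ℕ) + 1) = (1 + (j : ℕ) : ℤ)
      · rw [if_pos hj, if_pos (by apply Fin.ext; simp only; omega)]
        ring
      · rw [if_neg hj, if_neg (by
          intro h
          apply hj
          rw [h]
          simp only
          omega)]
        ring
    rw [← Finset.mul_sum, Finset.sum_congr rfl (fun j _ => hval j), Finset.sum_sub_distrib,
      ← Finset.mul_sum, Finset.sum_ite_eq' Finset.univ]
    simp only [Finset.sum_const, Finset.card_univ, Fintype.card_fin, nsmul_eq_mul, mul_one,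
      Finset.mem_univ, if_true]
    have : ((k : ℕ) : ℝ) + 2 ≠ 0 := by positivity
    push_cast
    field_simp
  have hconst : 0 ≤ ∏ k : Fin (q - 1), (1 / (((k : ℕ) : ℝ) + 2)) :=
    Finset.prod_nonneg fun k _ => by positivity
  calc ∑ g : ((k : Fin (q - 1)) → Fin ((k : ℕ) + 2)),
      (∏ k : Fin (q - 1), (1 / (((k : ℕ) : ℝ) + 2))) * win (q + 1) lam x (yp q g)
      ≤ ∑ g : ((k : Fin (q - 1)) → Fin ((k : ℕ) + 2)),
      (∏ k : Fin (q - 1), (1 / (((k : ℕ) : ℝ) + 2))) * (lam *
        ∏ k : Fin (q - 1), (if x ((k : ℕ) + 1) = (1 + (g k : ℕ) : ℤ) then lam else 1)) :=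
        Finset.sum_le_sum fun g _ => mul_le_mul_of_nonneg_left (hpt g) hconst
    _ = lam * ∑ g : ((k : Fin (q - 1)) → Fin ((k : ℕ) + 2)),
        ∏ k : Fin (q - 1), ((1 / (((k : ℕ) : ℝ) + 2)) *
          (if x ((k : ℕ) + 1) = (1 + (g k : ℕ) : ℤ) then lam else 1)) := by
        rw [Finset.mul_sum]
        apply Finset.sum_congr rfl
        intro g _
        rw [Finset.prod_mul_distrib]
        ring
    _ = lam * ∏ k : Fin (q - 1), ∑ j : Fin ((k : ℕ) + 2), ((1 / (((k : ℕ) : ℝ) + 2)) *
          (if x ((k : ℕ) + 1) = (1 + (j : ℕ) : ℤ) then lam else 1)) := by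
        congr 1
        rw [Finset.prod_univ_sum]
        rw [Fintype.piFinset_univ]
    _ = lam * ∏ k : Fin (q - 1), (1 - (1 - lam) / (((k : ℕ) : ℝ) + 2)) := by
        congr 1
        exact Finset.prod_congr rfl fun k _ => hsum1 k
    _ = ∏ k ∈ Finset.Icc 1 q, (1 - (1 - lam) / (k : ℝ)) := by
        obtain ⟨r, rfl⟩ : ∃ r, q = r + 1 := ⟨q - 1, by omega⟩
        have h3 : Finset.Icc 1 (r + 1) = Finset.Ico 1 (r + 2) := by
          ext a
          simp only [Finset.mem_Icc, Finset.mem_Ico]
          omega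
        rw [h3, Finset.prod_Ico_eq_prod_range]
        have h5 : r + 2 - 1 = r + 1 := by omega
        rw [h5, Finset.prod_range_succ']
        rw [mul_comm]
        have h4 : r + 1 - 1 = r := rfl
        rw [Fin.prod_univ_eq_prod_range (fun k : ℕ => 1 - (1 - lam) / ((k : ℝ) + 2)) (r + 1 - 1), h4]
        congr 1
        · apply Finset.prod_congr rfl
          intro k _
          push_cast
          ring
        · norm_num

lemma first_order (q : ℕ) (lam : ℝ) (h0 : 0 < lam) (h1 : lam < 1) :
    0 ≤ ∏ k ∈ Finset.Icc 1 q, (1 - (1 - lam) / (k : ℝ)) ∧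
    ∏ k ∈ Finset.Icc 1 q, (1 - (1 - lam) / (k : ℝ)) ≤
      1 - (∑ k ∈ Finset.Icc 1 q, (1 : ℝ) / k) * (1 - lam) +
        ((∑ k ∈ Finset.Icc 1 q, (1 : ℝ) / k) * (1 - lam)) ^ 2 / 2 := by
  induction q with
  | zero => simp
  | succ j ih =>
    rw [Finset.prod_Icc_succ_top (by omega), Finset.sum_Icc_succ_top (by omega)]
    obtain ⟨hp, hle⟩ := ih
    have hj : (0 : ℝ) < ((j + 1 : ℕ) : ℝ) := by positivity
    have ha0 : 0 ≤ (1 - lam) / ((j + 1 : ℕ) : ℝ) := div_nonneg (by linarith) hj.le
    have ha1 : (1 - lam) / ((j + 1 : ℕ) : ℝ) ≤ 1 := by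
      rw [div_le_one hj]
      have : (1 : ℝ) ≤ ((j + 1 : ℕ) : ℝ) := by exact_mod_cast Nat.le_add_left 1 j
      linarith
    have e : (∑ k ∈ Finset.Icc 1 j, (1 : ℝ) / k + 1 / ((j + 1 : ℕ) : ℝ)) * (1 - lam) =
        (∑ k ∈ Finset.Icc 1 j, (1 : ℝ) / k) * (1 - lam) + (1 - lam) / ((j + 1 : ℕ) : ℝ) := by
      ring
    rw [e]
    generalize (1 - lam) / ((j + 1 : ℕ) : ℝ) = a at *
    generalize (∑ k ∈ Finset.Icc 1 j, (1 : ℝ) / k) * (1 - lam) = s at *
    generalize ∏ k ∈ Finset.Icc 1 j, (1 - (1 - lam) / (k : ℝ)) = P at *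
    refine ⟨mul_nonneg hp (by linarith), ?_⟩
    calc P * (1 - a) ≤ (1 - s + s ^ 2 / 2) * (1 - a) :=
          mul_le_mul_of_nonneg_right hle (by linarith)
      _ ≤ 1 - (s + a) + (s + a) ^ 2 / 2 := by
          nlinarith [mul_nonneg ha0 (sq_nonneg s), sq_nonneg a]

lemma o3 (j : ℕ) : 1 ≤ 3 ^ j := Nat.one_le_pow _ _ (by norm_num)

/-- The shift `s j` as an integer, `0` for `j ≥ J`. -/
def sh (J : ℕ) (s : Fin J → Fin 3) (j : ℕ) : ℤ := if h : j < J then ((s ⟨j, h⟩ : ℕ) : ℤ) else 0

lemma sh_bd (J : ℕ) (s : Fin J → Fin 3) (j : ℕ) : 0 ≤ sh J s j ∧ sh J s j ≤ 2 := by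
  unfold sh
  split_ifs with h
  · have := (s ⟨j, h⟩).2
    constructor <;> omega
  · constructor <;> norm_num

/-- The zigzag paths: in the block of times `3 ^ j, …, 3 ^ (j + 1)` up from cell `1` to cell
`2 * 3 ^ j + 1 - s j` and down again, two cells at a time. -/
def yz (J : ℕ) (s : Fin J → Fin 3) (t : ℕ) : ℤ :=
  if Nat.log 3 t < J ∧ 1 ≤ t then
    max 1 (1 + 2 * 3 ^ (Nat.log 3 t) - sh J s (Nat.log 3 t) -
      2 * |(t : ℤ) - 2 * 3 ^ (Nat.log 3 t)|)
  else 1

lemma yz_search (n J w : ℕ) (hw : 2 ≤ w) (hJ : 3 ^ J ≤ n) (s : Fin J → Fin 3) :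
    IsSearch n w (yz J s) := by
  have hn : 1 ≤ n := le_trans (o3 J) hJ
  have hb : ∀ t, 1 ≤ yz J s t ∧ yz J s t ≤ n := by
    intro t
    unfold yz
    split_ifs with h
    · refine ⟨le_max_left _ _, max_le (by exact_mod_cast hn) ?_⟩
      have h1 : 3 ^ (Nat.log 3 t + 1) ≤ 3 ^ J := Nat.pow_le_pow_right (by norm_num) h.1
      have h2 : ((3 ^ (Nat.log 3 t) : ℕ) : ℤ) * 3 ≤ (n : ℤ) := by
        rw [pow_succ] at h1
        exact_mod_cast le_trans h1 hJ
      have h3 : (1 : ℤ) ≤ ((3 ^ (Nat.log 3 t) : ℕ) : ℤ) := by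
        exact_mod_cast o3 _
      have h5 := (sh_bd J s (Nat.log 3 t)).1
      have h4 := abs_nonneg ((t : ℤ) - 2 * 3 ^ (Nat.log 3 t))
      push_cast at h2 h3
      omega
    · exact ⟨le_refl _, by exact_mod_cast hn⟩
  refine ⟨?_, fun t => ⟨(hb _).1, (hb _).2, ?_⟩⟩
  · unfold yz
    rw [if_neg (by omega)]
  · rcases Nat.eq_zero_or_pos t with h0 | h0
    · subst h0
      have e0 : yz J s 0 = 1 := by
        unfold yz
        rw [if_neg (by omega)]
      rw [e0]
      have h3 : yz J s (0 + 1) ≤ 1 := by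
        unfold yz
        have hl : Nat.log 3 (0 + 1) = 0 := by simp
        rw [hl]
        split_ifs with h
        · apply max_le (le_refl _)
          have : |((0 + 1 : ℕ) : ℤ) - 2 * 3 ^ 0| = 1 := by norm_num
          rw [this]
          have h5 := (sh_bd J s 0).1
          omega
        · exact le_refl _
      have h2 := (hb (0 + 1)).1
      rw [abs_le]
      constructor <;> omega
    · have hA : 3 ^ (Nat.log 3 t) ≤ t := Nat.pow_log_le_self 3 (by omega)
      have hB : t < 3 ^ (Nat.log 3 t + 1) := Nat.lt_pow_succ_log_self (by norm_num) t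
      rcases Nat.lt_or_ge (t + 1) (3 ^ (Nat.log 3 t + 1)) with hC | hC
      · -- same block
        have hlog : Nat.log 3 (t + 1) = Nat.log 3 t := by
          apply (Nat.log_eq_iff (Or.inr ⟨by norm_num, by omega⟩)).2
          constructor
          · omega
          · exact hC
        unfold yz
        rw [hlog]
        by_cases h : Nat.log 3 t < J
        · rw [if_pos ⟨h, by omega⟩, if_pos ⟨h, by omega⟩]
          generalize ((s ⟨Nat.log 3 t, _⟩ : ℕ) : ℤ) = z
          generalize (3 : ℤ) ^ (Nat.log 3 t) = K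
          push_cast
          rcases abs_cases ((t : ℤ) + 1 - 2 * K) with ⟨h1, h2⟩ | ⟨h1, h2⟩ <;>
          rcases abs_cases ((t : ℤ) - 2 * K) with ⟨h3, h4⟩ | ⟨h3, h4⟩ <;>
          rw [h1, h3, abs_le] <;> constructor <;> omega
        · rw [if_neg (by omega), if_neg (by omega)]
          simp
      · -- the next block starts at `t + 1`
        have hE : t + 1 = 3 ^ (Nat.log 3 t + 1) := by omega
        have hlog : Nat.log 3 (t + 1) = Nat.log 3 t + 1 := by
          rw [hE]
          exact Nat.log_pow (by norm_num) _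
        have h1 : yz J s (t + 1) ≤ 1 := by
          unfold yz
          split_ifs with h
          · apply max_le (le_refl _)
            have hK : (3 : ℤ) ^ Nat.log 3 (t + 1) = (t : ℤ) + 1 := by
              rw [hlog]
              exact_mod_cast hE.symm
            rw [hK]
            have h5 := (sh_bd J s (Nat.log 3 (t + 1))).1
            generalize sh J s (Nat.log 3 (t + 1)) = z at *
            push_cast
            rcases abs_cases ((t : ℤ) + 1 - 2 * ((t : ℤ) + 1)) with ⟨h1, h2⟩ | ⟨h1, h2⟩ <;>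
            rw [h1] <;> omega
          · exact le_refl _
        have h2 := (hb (t + 1)).1
        have h3 : yz J s t ≤ 3 := by
          unfold yz
          split_ifs with h
          · apply max_le (by norm_num)
            have hK : (3 : ℤ) ^ Nat.log 3 t * 3 = (t : ℤ) + 1 := by
              rw [pow_succ] at hE
              exact_mod_cast hE.symm
            have h5 := (sh_bd J s (Nat.log 3 t)).1
            generalize sh J s (Nat.log 3 t) = z at *
            generalize (3 : ℤ) ^ Nat.log 3 t = K at *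
            rcases abs_cases ((t : ℤ) - 2 * K) with ⟨h1, h2⟩ | ⟨h1, h2⟩ <;>
            rw [h1] <;> omega
          · norm_num
        have h4 := (hb t).1
        rw [abs_le]
        constructor <;> omega

/-- In each block one of the three shifts is caught, at a time that depends only on `x`. -/
lemma hit (n : ℕ) (x : ℕ → ℤ) (hx : IsInfil n x) (j : ℕ) :
    ∃ (t : ℕ) (z : Fin 3), 3 ^ j < t ∧ t ≤ 2 * 3 ^ j ∧
      ∀ (J : ℕ) (s : Fin J → Fin 3) (hj : j < J), s ⟨j, hj⟩ = z → x t = yz J s t := by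
  classical
  set K : ℕ := 3 ^ j with hK
  have hK1 : 1 ≤ K := o3 _
  have hex : ∃ i, 1 ≤ i ∧ x (K + i) ≤ 1 + 2 * (i : ℤ) := by
    refine ⟨K, hK1, ?_⟩
    have := infil_speed n x hx (K + K)
    push_cast at this
    linarith
  obtain ⟨hi1, hi2⟩ := Nat.find_spec hex
  have hmin := fun m => Nat.find_min (m := m) hex
  have hle : Nat.find hex ≤ K := Nat.find_min' hex (by
    refine ⟨hK1, ?_⟩
    have := infil_speed n x hx (K + K)
    push_cast at this
    linarith)
  set i := Nat.find hex with hi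
  have hlow : 2 * (i : ℤ) - 1 ≤ x (K + i) := by
    rcases Nat.lt_or_ge 1 i with h | h
    · have h3 := hmin (i - 1) (by omega)
      have h4 : 1 + 2 * ((i - 1 : ℕ) : ℤ) < x (K + (i - 1)) := by
        by_contra hcon
        exact h3 ⟨by omega, not_lt.1 hcon⟩
      have h5 := (hx.2 (K + (i - 1))).2.2
      have h6 : K + (i - 1) + 1 = K + i := by omega
      rw [h6, abs_le] at h5
      omega
    · have h3 := infil_pos n x hx (K + i)
      omega
  refine ⟨K + i, ⟨(1 + 2 * (i : ℤ) - x (K + i)).toNat, by omega⟩, by omega, by omega, ?_⟩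
  intro J s hj hs
  have hlog : Nat.log 3 (K + i) = j := by
    apply (Nat.log_eq_iff (Or.inr ⟨by norm_num, by omega⟩)).2
    constructor
    · omega
    · rw [pow_succ]; omega
  unfold yz
  rw [hlog, if_pos ⟨hj, by omega⟩]
  have hs' : sh J s j = 1 + 2 * (i : ℤ) - x (K + i) := by
    unfold sh
    rw [dif_pos hj, hs]
    simp only
    omega
  rw [hs']
  have hKz : (3 : ℤ) ^ j = (K : ℤ) := by rw [hK]; push_cast; rfl
  rw [hKz]
  have hp := infil_pos n x hx (K + i)
  push_cast
  rcases abs_cases ((K : ℤ) + i - 2 * K) with ⟨h1, h2⟩ | ⟨h1, h2⟩ <;> rw [h1] <;> omega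

/-- **Part D**: the searcher's guarantee for `w ≥ 2`. -/
lemma partD (n J : ℕ) (hJ : 3 ^ J ≤ n) (lam : ℝ) (h0 : 0 < lam) (h1 : lam < 1) (x : ℕ → ℤ)
    (hx : IsInfil n x) :
    ∑ s : (Fin J → Fin 3), (1 / (3 : ℝ)) ^ J * win n lam x (yz J s) ≤ ((2 + lam) / 3) ^ J := by
  classical
  choose t z ht1 ht2 hhit using fun j => hit n x hx j
  have hlogt : ∀ j, Nat.log 3 (t j) = j := by
    intro j
    have h1 := ht1 j
    have h2 := ht2 j
    have h3 : 1 ≤ 3 ^ j := o3 _
    apply (Nat.log_eq_iff (Or.inr ⟨by norm_num, by omega⟩)).2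
    constructor
    · omega
    · rw [pow_succ]; omega
  have hpt : ∀ s : (Fin J → Fin 3), win n lam x (yz J s) ≤
      ∏ j : Fin J, (if s j = z j then lam else 1) := by
    intro s
    unfold win
    split_ifs with hex
    · have hT := Nat.find_spec hex
      set T := Nat.find hex with hTdef
      have hTn : n ≤ T := by
        have := infil_speed n x hx T
        rw [hT] at this
        omega
      have hprod : ∏ j : Fin J, (if s j = z j then lam else 1) =
          lam ^ ((Finset.univ : Finset (Fin J)).filter (fun j : Fin J => s j = z j)).card := by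
        rw [Finset.prod_ite, Finset.prod_const, Finset.prod_const_one, mul_one]
      rw [hprod]
      apply pow_le_pow_of_le_one h0.le h1.le
      apply Finset.card_le_card_of_injOn (fun j : Fin J => t j)
      · intro j hj
        have hj' := (Finset.mem_filter.1 (Finset.mem_coe.1 hj)).2
        have h3 := ht1 j
        have h4 := ht2 j
        have h5 : 3 ^ ((j : ℕ) + 1) ≤ 3 ^ J := Nat.pow_le_pow_right (by norm_num) j.2
        have h6 : 1 ≤ 3 ^ (j : ℕ) := o3 _
        rw [pow_succ] at h5
        rw [Finset.mem_coe, Finset.mem_filter, Finset.mem_Ico]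
        have h7 : 3 ^ J ≤ T := hJ.trans hTn
        change (1 ≤ t j ∧ t j < T) ∧ x (t j) = yz J s (t j)
        exact ⟨⟨by omega, by omega⟩, hhit j J s j.2 hj'⟩
      · intro a _ b _ hab
        have hab' : t a = t b := hab
        apply Fin.ext
        rw [← hlogt a, ← hlogt b, hab']
    · apply Finset.prod_nonneg
      intro k _
      split_ifs <;> linarith
  have hsum1 : ∀ j : Fin J, ∑ c : Fin 3, (1 / (3 : ℝ)) * (if c = z j then lam else 1) =
      (2 + lam) / 3 := by
    intro j
    have hval : ∀ c : Fin 3, (if c = z j then lam else (1 : ℝ)) =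
        1 - (1 - lam) * (if c = z j then 1 else 0) := by
      intro c
      split_ifs <;> ring
    rw [← Finset.mul_sum, Finset.sum_congr rfl (fun c _ => hval c), Finset.sum_sub_distrib,
      ← Finset.mul_sum, Finset.sum_ite_eq' Finset.univ]
    simp only [Finset.sum_const, Finset.card_univ, Fintype.card_fin, nsmul_eq_mul, mul_one,
      Finset.mem_univ, if_true]
    push_cast
    ring
  calc ∑ s : (Fin J → Fin 3), (1 / (3 : ℝ)) ^ J * win n lam x (yz J s)
      ≤ ∑ s : (Fin J → Fin 3), (1 / (3 : ℝ)) ^ J * ∏ j : Fin J, (if s j = z j then lam else 1) :=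
        Finset.sum_le_sum fun s _ => mul_le_mul_of_nonneg_left (hpt s) (by positivity)
    _ = ∑ s : (Fin J → Fin 3), ∏ j : Fin J, ((1 / (3 : ℝ)) * (if s j = z j then lam else 1)) := by
        apply Finset.sum_congr rfl
        intro s _
        rw [Finset.prod_mul_distrib, Finset.prod_const, Finset.card_univ, Fintype.card_fin]
    _ = ∏ j : Fin J, ∑ c : Fin 3, ((1 / (3 : ℝ)) * (if c = z j then lam else 1)) := by
        rw [Finset.prod_univ_sum]
        rw [Fintype.piFinset_univ]
    _ = ((2 + lam) / 3) ^ J := by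
        rw [Finset.prod_congr rfl (fun j _ => hsum1 j), Finset.prod_const, Finset.card_univ,
          Fintype.card_fin]

lemma harm_log (q n : ℕ) (hqn : q ≤ n) (hn : 1 ≤ n) :
    ∑ k ∈ Finset.Icc 1 q, (1 : ℝ) / k ≤ 1 + Real.log n := by
  have h1 : ∑ k ∈ Finset.Icc 1 q, (1 : ℝ) / k ≤ ∑ k ∈ Finset.Icc 1 n, (1 : ℝ) / k := by
    apply Finset.sum_le_sum_of_subset_of_nonneg
    · exact Finset.Icc_subset_Icc_right hqn
    · intro i _ _
      positivity
  have h2 := harmonic_le_one_add_log n
  rw [harmonic_eq_sum_Icc] at h2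
  push_cast at h2
  refine h1.trans (le_trans (le_of_eq ?_) h2)
  apply Finset.sum_congr rfl
  intro k _
  rw [one_div]

/-- The power bound that follows from the guarantees with integer `m`. -/
lemma power_of_int (lam : ℝ) (h0 : 0 < lam) (h1 : lam < 1) (H V : ℝ) (hH : 0 ≤ H) (n : ℕ)
    (hn : 1 ≤ n) (hHn : H ≤ 1 + Real.log n)
    (hV : ∀ m : ℕ, lam ^ m * (1 - (H - m) * (1 - lam)) ≤ V) :
    lam * (n : ℝ) ^ (Real.log lam) ≤ V := by
  have hnR : (0 : ℝ) < n := by exact_mod_cast hn
  refine le_trans ?_ (hV ⌊H⌋₊)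
  have hfl : (⌊H⌋₊ : ℝ) ≤ H := Nat.floor_le hH
  have hfl2 : H < ⌊H⌋₊ + 1 := Nat.lt_floor_add_one H
  have hb := rpow_one_add_le_one_add_mul_self (s := lam - 1) (by linarith)
    (p := H - ⌊H⌋₊) (by linarith) (by linarith)
  have e1 : 1 + (lam - 1) = lam := by ring
  rw [e1] at hb
  have e2 : lam * (n : ℝ) ^ (Real.log lam) = lam ^ (1 + Real.log n) := by
    rw [Real.rpow_add h0, Real.rpow_one, Real.rpow_def_of_pos h0, Real.rpow_def_of_pos hnR,
      mul_comm (Real.log lam)]
  rw [e2]
  calc lam ^ (1 + Real.log n) ≤ lam ^ H :=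
        Real.rpow_le_rpow_of_exponent_ge h0 h1.le hHn
    _ = lam ^ ((⌊H⌋₊ : ℝ) + (H - ⌊H⌋₊)) := by congr 1; ring
    _ = lam ^ ⌊H⌋₊ * lam ^ (H - ⌊H⌋₊) := by rw [Real.rpow_add h0, Real.rpow_natCast]
    _ ≤ lam ^ ⌊H⌋₊ * (1 - (H - ⌊H⌋₊) * (1 - lam)) := by
        apply mul_le_mul_of_nonneg_left _ (by positivity)
        linarith

lemma guaranteeA (n : ℕ) (_hn : 1 ≤ n) : ∃ (ι : Type) (_ : Fintype ι) (p : ι → ℝ) (x : ι → ℕ → ℤ),
      (∀ i, 0 ≤ p i) ∧ ∑ i, p i = 1 ∧ (∀ i, IsInfil n (x i)) ∧
      ∀ (w : ℕ) (y : ℕ → ℤ), IsSearch n w y → ∀ lam : ℝ, 0 < lam → lam < 1 → ∀ m : ℕ,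
        lam ^ m * (1 - (∑ k ∈ Finset.Icc 1 (n - 1), (1 : ℝ) / k - m) * (1 - lam)) ≤
          ∑ i, p i * win n lam (x i) y := by
  classical
  rcases Nat.lt_or_ge 1 n with h | h
  · obtain ⟨q, rfl⟩ : ∃ q, n = q + 1 := ⟨n - 1, by omega⟩
    have hq : 1 ≤ q := by omega
    have hMR : (0 : ℝ) < q.factorial := by exact_mod_cast Nat.factorial_pos q
    refine ⟨Fin q.factorial, inferInstance, fun _ => 1 / (q.factorial : ℝ),
      fun u => xp q q.factorial u, fun _ => by positivity, ?_, ?_, ?_⟩
    · rw [Finset.sum_const, Finset.card_univ, Fintype.card_fin, nsmul_eq_mul]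
      field_simp
    · intro u
      exact xp_infil q hq _ _ u.2
    · intro w y hy lam h0 h1 m
      have := partA q hq lam h0 h1 w y hy m
      rw [Nat.add_sub_cancel]
      rw [Fin.sum_univ_eq_sum_range (fun u : ℕ => (1 / (q.factorial : ℝ)) *
        win (q + 1) lam (xp q q.factorial u) y) q.factorial]
      exact this
  · obtain rfl : n = 1 := by omega
    refine ⟨Unit, inferInstance, fun _ => 1, fun _ k => if k = 0 then 1 else 2,
      fun _ => zero_le_one, by simp, ?_, ?_⟩
    · intro _
      refine ⟨by simp, fun k => ?_⟩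
      by_cases hk : k = 0
      · subst hk; simp
      · simp [hk]
    · intro w y hy lam h0 h1 m
      have hb := bern lam h0 h1 m 0
      have hw : win 1 lam (fun k : ℕ => if k = 0 then (1 : ℤ) else 2) y = 1 := by
        unfold win
        have hex : ∃ T : ℕ, (fun k : ℕ => if k = 0 then (1 : ℤ) else 2) T = ((1 : ℕ) : ℤ) + 1 :=
          ⟨1, by simp⟩
        rw [dif_pos hex]
        have : Nat.find hex ≤ 1 := Nat.find_min' hex (by simp)
        rw [Finset.Ico_eq_empty_of_le this]
        simp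
      simp only [Finset.univ_unique, Finset.sum_const, Finset.card_singleton, one_smul, one_mul]
      rw [hw]
      simp only [pow_zero, Nat.cast_zero] at hb
      simpa using hb

end Pool.Agent.H428I
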